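import Pool.Agent.Run7.h500.RD.Stm

/-!
Project RD (MP_9de3af_an), piece GLUE: gluing two functions holomorphic on both sides of a real
segment, with an integrable majorant and equal vertical limits almost everywhere. The proof uses a
primitive, which is continuous across the segment, and the theorem of Morera.
-/

set_option autoImplicit false
open MeasureTheory Filter Topology Set Complex
open scoped Interval

namespace Run7.h495.RD

open Pool.Agent.Run7.h500.RD

theorem bdry {F : ℂ → ℂ} {U : Set ℂ} (hc : ContinuousOn F U)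
    (hd : ∀ w ∈ U, w.im ≠ 0 → DifferentiableAt ℂ F w) (a b p q : ℝ)
    (hsub : [[a, b]] ×ℂ [[p, q]] ⊆ U) (h0 : (0 : ℝ) ∉ Ioo (min p q) (max p q)) :
    (∫ x : ℝ in a..b, F (x + p * I)) - (∫ x : ℝ in a..b, F (x + q * I)) +
      I • (∫ y : ℝ in p..q, F (b + y * I)) - I • (∫ y : ℝ in p..q, F (a + y * I)) = 0 := by
  have h1 : ContinuousOn F ([[(a + p * I : ℂ).re, (b + q * I : ℂ).re]] ×ℂ
      [[(a + p * I : ℂ).im, (b + q * I : ℂ).im]]) := by
    simpa using hc.mono hsub
  have h2 : DifferentiableOn ℂ F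
      (Ioo (min (a + p * I : ℂ).re (b + q * I : ℂ).re) (max (a + p * I : ℂ).re (b + q * I : ℂ).re) ×ℂ
        Ioo (min (a + p * I : ℂ).im (b + q * I : ℂ).im)
          (max (a + p * I : ℂ).im (b + q * I : ℂ).im)) := by
    intro w hw
    rw [mem_reProdIm] at hw
    simp only [add_re, ofReal_re, mul_re, I_re, mul_zero, ofReal_im, I_im, mul_one, sub_self,
      add_zero, add_im, mul_im, zero_add] at hw
    refine (hd w (hsub ?_) ?_).differentiableWithinAt
    · rw [mem_reProdIm]
      exact ⟨Ioo_subset_Icc_self hw.1, Ioo_subset_Icc_self hw.2⟩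
    · intro h
      rw [h] at hw
      exact h0 hw.2
  have := integral_boundary_rect_eq_zero_of_continuousOn_of_differentiableOn F (a + p * I)
    (b + q * I) h1 h2
  simpa using this

/-- a continuous function which is holomorphic off the real line is conservative -/
theorem conservative {F : ℂ → ℂ} {U : Set ℂ} (hc : ContinuousOn F U)
    (hd : ∀ w ∈ U, w.im ≠ 0 → DifferentiableAt ℂ F w) : IsConservativeOn F U := by
  intro z w hzw
  rw [← add_eq_zero_iff_eq_neg, wedgeIntegral_add_wedgeIntegral_eq]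
  have hsub : [[z.re, w.re]] ×ℂ [[z.im, w.im]] ⊆ U := hzw
  by_cases h0 : (0 : ℝ) ∈ Ioo (min z.im w.im) (max z.im w.im)
  · have h0' : (0 : ℝ) ∈ [[z.im, w.im]] := Ioo_subset_Icc_self h0
    have s1 : [[z.im, 0]] ⊆ [[z.im, w.im]] := uIcc_subset_uIcc left_mem_uIcc h0'
    have s2 : [[0, w.im]] ⊆ [[z.im, w.im]] := uIcc_subset_uIcc h0' right_mem_uIcc
    have r1 : [[z.re, w.re]] ×ℂ [[z.im, 0]] ⊆ U := fun v hv => hsub ⟨hv.1, s1 hv.2⟩
    have r2 : [[z.re, w.re]] ×ℂ [[0, w.im]] ⊆ U := fun v hv => hsub ⟨hv.1, s2 hv.2⟩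
    have n1 : (0 : ℝ) ∉ Ioo (min z.im 0) (max z.im 0) := by
      rintro ⟨h1, h2⟩
      rcases le_total z.im 0 with h | h
      · rw [max_eq_right h] at h2; exact lt_irrefl _ h2
      · rw [min_eq_right h] at h1; exact lt_irrefl _ h1
    have n2 : (0 : ℝ) ∉ Ioo (min 0 w.im) (max 0 w.im) := by
      rintro ⟨h1, h2⟩
      rcases le_total w.im 0 with h | h
      · rw [max_eq_left h] at h2; exact lt_irrefl _ h2
      · rw [min_eq_left h] at h1; exact lt_irrefl _ h1
    have e1 := bdry hc hd z.re w.re z.im 0 r1 n1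
    have e2 := bdry hc hd z.re w.re 0 w.im r2 n2
    have ci : ∀ a ∈ [[z.re, w.re]], ContinuousOn (fun y : ℝ => F (a + y * I)) [[z.im, w.im]] := by
      intro a ha
      refine hc.comp (by fun_prop) ?_
      intro y hy
      refine hsub ?_
      rw [mem_reProdIm]
      simpa using ⟨ha, hy⟩
    have i1 : ∀ a ∈ [[z.re, w.re]], (∫ y : ℝ in z.im..0, F (a + y * I))
        + (∫ y : ℝ in (0 : ℝ)..w.im, F (a + y * I)) = ∫ y : ℝ in z.im..w.im, F (a + y * I) := by
      intro a ha
      exact intervalIntegral.integral_add_adjacent_intervals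
        ((ci a ha).mono s1).intervalIntegrable ((ci a ha).mono s2).intervalIntegrable
    rw [← i1 z.re left_mem_uIcc, ← i1 w.re right_mem_uIcc]
    have e3 := congrArg₂ (· + ·) e1 e2
    simp only [add_zero] at e3
    rw [← e3]
    simp only [smul_add]
    ring
  · have := bdry hc hd z.re w.re z.im w.im hsub h0
    exact this

theorem t_GLUE : S_GLUE := by
  intro G α β Φ hab hG hΦ hae
  have hopen : IsOpen {w : ℂ | w.im ≠ 0} := isOpen_ne_fun continuous_im continuous_const
  have hGc : ContinuousOn G {w | w.im ≠ 0} := hG.continuousOn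
  -- a good point
  obtain ⟨x0, hx0, hx0b, hx0l⟩ : ∃ x0 ∈ Ioo α β,
      (∀ η : ℝ, η ≠ 0 → |η| < 1 → ‖G ((x0 : ℂ) + η * I)‖ ≤ Φ x0) ∧
      ∃ L : ℂ, Tendsto (fun η : ℝ => G ((x0 : ℂ) + η * I)) (𝓝[≠] 0) (𝓝 L) := by
    have h1 : ∀ᵐ a : ℝ ∂(volume.restrict (Ioo α β)),
      (∀ η : ℝ, η ≠ 0 → |η| < 1 → ‖G ((a : ℂ) + η * I)‖ ≤ Φ a) ∧
      ∃ L : ℂ, Tendsto (fun η : ℝ => G ((a : ℂ) + η * I)) (𝓝[≠] 0) (𝓝 L) :=
      (ae_restrict_iff' measurableSet_Ioo).2 hae
    have h2 : ∀ᵐ a : ℝ ∂(volume.restrict (Ioo α β)), a ∈ Ioo α β := ae_restrict_mem measurableSet_Ioo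
    have hne : (volume.restrict (Ioo α β)) ≠ 0 := by
      rw [Ne, Measure.restrict_eq_zero, Real.volume_Ioo]
      simp [hab]
    haveI : (ae (volume.restrict (Ioo α β))).NeBot := ae_neBot.2 hne
    obtain ⟨a, ha1, ha2⟩ := (h1.and h2).exists
    exact ⟨a, ha2, ha1⟩
  set L : ℝ → ℂ := fun a => limUnder (𝓝[≠] (0 : ℝ)) (fun η : ℝ => G ((a : ℂ) + η * I)) with hL
  set g : ℝ → ℝ → ℂ := fun y t => if y = 0 then L t else G ((t : ℂ) + y * I) with hg
  set A : ℝ → ℂ := fun y => I • ∫ s in (0 : ℝ)..y, G ((x0 : ℂ) + s * I) with hA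
  set F : ℂ → ℂ := fun w => A w.im + ∫ t in x0..w.re, g w.im t with hF
  have hev : ∀ᶠ η : ℝ in 𝓝[≠] (0 : ℝ), η ≠ 0 ∧ |η| < 1 := by
    have h1 : ∀ᶠ η : ℝ in 𝓝[≠] (0 : ℝ), η ≠ 0 := eventually_mem_nhdsWithin
    have h2 : ∀ᶠ η : ℝ in 𝓝 (0 : ℝ), |η| < 1 := by
      have : Tendsto (fun η : ℝ => |η|) (𝓝 0) (𝓝 |(0 : ℝ)|) := continuous_abs.tendsto 0
      rw [abs_zero] at this
      exact this.eventually (gt_mem_nhds one_pos)
    exact h1.and (h2.filter_mono nhdsWithin_le_nhds)
  have hlim : ∀ᵐ a : ℝ, a ∈ Ioo α β → Tendsto (fun η : ℝ => G ((a : ℂ) + η * I)) (𝓝[≠] 0)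
      (𝓝 (L a)) := by
    filter_upwards [hae] with a ha hm
    obtain ⟨l, hl⟩ := (ha hm).2
    have : L a = l := hl.limUnder_eq
    rwa [this]
  have hgb : ∀ y : ℝ, |y| < 1 → ∀ᵐ t : ℝ, t ∈ Ioo α β → ‖g y t‖ ≤ Φ t := by
    intro y hy
    by_cases h0 : y = 0
    · filter_upwards [hae, hlim] with t ht ht2 hm
      simp only [hg, h0, if_true]
      refine le_of_tendsto (ht2 hm).norm ?_
      filter_upwards [hev] with η hη
      exact (ht hm).1 η hη.1 hη.2
    · filter_upwards [hae] with t ht hm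
      simp only [hg, h0, if_false]
      exact (ht hm).1 y h0 hy
  have hGy : ∀ y : ℝ, y ≠ 0 → Continuous (fun t : ℝ => G ((t : ℂ) + y * I)) := by
    intro y hy
    refine hGc.comp_continuous (by fun_prop) ?_
    intro t
    simpa using hy
  have hgm : ∀ y : ℝ, AEStronglyMeasurable (g y) (volume.restrict (Ioo α β)) := by
    intro y
    by_cases h0 : y = 0
    · have e : g y = L := by funext t; simp [hg, h0]
      rw [e]
      refine aestronglyMeasurable_of_tendsto_ae atTop
        (f := fun (n : ℕ) (t : ℝ) => G ((t : ℂ) + ((1 / ((n : ℝ) + 1) : ℝ) : ℂ) * I)) ?_ ?_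
      · intro n
        exact (hGy _ (by positivity)).aestronglyMeasurable
      · refine (ae_restrict_iff' measurableSet_Ioo).2 ?_
        filter_upwards [hlim] with t ht hm
        have hs : Tendsto (fun n : ℕ => (1 / ((n : ℝ) + 1) : ℝ)) atTop (𝓝[≠] 0) := by
          refine tendsto_nhdsWithin_iff.2 ⟨tendsto_one_div_add_atTop_nhds_zero_nat, ?_⟩
          exact Eventually.of_forall fun n => by
            simp only [mem_compl_iff, mem_singleton_iff]
            positivity
        exact (ht hm).comp hs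
    · have e : g y = fun t : ℝ => G ((t : ℂ) + y * I) := by funext t; simp [hg, h0]
      rw [e]
      exact (hGy y h0).aestronglyMeasurable
  have hgi : ∀ y : ℝ, |y| < 1 → IntegrableOn (g y) (Ioo α β) := by
    intro y hy
    exact Integrable.mono' hΦ (hgm y) ((ae_restrict_iff' measurableSet_Ioo).2 (hgb y hy))
  have hsubI : ∀ a ∈ Ioo α β, ∀ b ∈ Ioo α β, Ι a b ⊆ Ioo α β := by
    intro a ha b hb t ht
    rw [uIoc, mem_Ioc] at ht
    exact ⟨lt_of_le_of_lt (le_min ha.1.le hb.1.le) ht.1, lt_of_le_of_lt ht.2 (max_lt ha.2 hb.2)⟩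
  have hgii : ∀ y : ℝ, |y| < 1 → ∀ a ∈ Ioo α β, ∀ b ∈ Ioo α β,
      IntervalIntegrable (g y) volume a b := by
    intro y hy a ha b hb
    rw [intervalIntegrable_iff]
    exact (hgi y hy).mono_set (hsubI a ha b hb)
  have hne0 : ∀ᵐ s : ℝ, s ≠ 0 := by
    rw [ae_iff]; simp
  have hAb : ∀ y : ℝ, |y| < 1 → ∀ᵐ s : ℝ, s ∈ Ι 0 y → ‖G ((x0 : ℂ) + s * I)‖ ≤ Φ x0 := by
    intro y hy
    filter_upwards [hne0] with s hs hm
    refine hx0b s hs ?_
    rw [uIoc, mem_Ioc] at hm
    rw [abs_lt] at hy ⊢
    exact ⟨lt_of_le_of_lt (le_min (by norm_num) hy.1.le) hm.1,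
      lt_of_le_of_lt hm.2 (max_lt (by norm_num) hy.2)⟩
  have hAi : ∀ y : ℝ, |y| < 1 → IntervalIntegrable (fun s : ℝ => G ((x0 : ℂ) + s * I)) volume 0 y := by
    intro y hy
    rw [intervalIntegrable_iff]
    have hm : AEStronglyMeasurable (fun s : ℝ => G ((x0 : ℂ) + s * I)) volume := by
      have h1 : ContinuousOn (fun s : ℝ => G ((x0 : ℂ) + s * I)) {0}ᶜ := by
        refine hGc.comp (by fun_prop) ?_
        intro s hs
        simpa using hs
      have h2 := h1.aestronglyMeasurable (μ := volume) (measurableSet_singleton (0 : ℝ)).compl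
      have h3 : (volume : Measure ℝ).restrict {0}ᶜ = volume :=
        Measure.restrict_eq_self_of_ae_mem (by filter_upwards [hne0] with s hs; simpa using hs)
      rwa [h3] at h2
    refine Measure.integrableOn_of_bounded (M := Φ x0) ?_ hm ?_
    · rw [uIoc, Real.volume_Ioc]; exact ENNReal.ofReal_ne_top
    · refine (ae_restrict_iff' measurableSet_uIoc).2 (hAb y hy)
  have hAn : ∀ y : ℝ, |y| < 1 → ‖A y‖ ≤ Φ x0 * |y| := by
    intro y hy
    have := intervalIntegral.norm_integral_le_of_norm_le_const_ae (hAb y hy)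
    simp only [hA, norm_smul, norm_I, one_mul]
    simpa using this
  -- derivative off the real line
  set S : Set ℂ := {w | α < w.re ∧ w.re < β ∧ |w.im| < 1} with hS
  have hSo : IsOpen S := by
    refine (isOpen_lt continuous_const continuous_re).inter
      ((isOpen_lt continuous_re continuous_const).inter
        (isOpen_lt (continuous_abs.comp continuous_im) continuous_const))
  have hder : ∀ w1 ∈ S, w1.im ≠ 0 → HasDerivAt F (G w1) w1 := by
    intro w1 hw1 hi
    set T : Set ℂ := {w | 0 < w.im * w1.im} with hT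
    have hTo : IsOpen T := isOpen_lt continuous_const (continuous_im.mul continuous_const)
    have hw1T : w1 ∈ T := by
      change 0 < w1.im * w1.im
      exact mul_self_pos.2 hi
    have hTne : ∀ w ∈ T, w.im ≠ 0 := by
      intro w hw h
      change 0 < w.im * w1.im at hw
      rw [h, zero_mul] at hw
      exact lt_irrefl _ hw
    have hGT : DifferentiableOn ℂ G T := hG.mono hTne
    have hcons : IsConservativeOn G T := hGT.isConservativeOn
    obtain ⟨r, hr, hball⟩ := Metric.isOpen_iff.1 hTo w1 hw1T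
    have hd := IsConservativeOn.hasDerivAt_wedgeIntegral (c := w1) (r := r) (z := w1)
      (hGT.continuousOn.mono hball) (Metric.mem_ball_self hr) (hcons.mono hball)
    have hd2 : HasDerivAt (fun w => F w1 + wedgeIntegral w1 w G) (G w1) w1 := hd.const_add _
    refine hd2.congr_of_eventuallyEq ?_
    filter_upwards [(hTo.inter hSo).mem_nhds ⟨hw1T, hw1⟩] with w hw
    obtain ⟨hwT, hwS⟩ := hw
    have hwi : w.im ≠ 0 := hTne w hwT
    have hrect : Rectangle ((x0 : ℂ) + w1.im * I) w ⊆ T := by
      intro v hv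
      have hv2 : v.im ∈ [[w1.im, w.im]] := by
        have := hv.2
        simpa using this
      change 0 < v.im * w1.im
      change 0 < w.im * w1.im at hwT
      have h3 : 0 < w1.im * w1.im := hw1T
      rcases lt_or_gt_of_ne hi with h | h
      · have h4 : w.im < 0 := by nlinarith
        have h5 : v.im ≤ max w1.im w.im := hv2.2
        have h6 : v.im < 0 := lt_of_le_of_lt h5 (max_lt h h4)
        nlinarith
      · have h4 : 0 < w.im := by nlinarith
        have h5 : min w1.im w.im ≤ v.im := hv2.1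
        have h6 : 0 < v.im := lt_of_lt_of_le (lt_min h h4) h5
        nlinarith
    have e1 := hcons _ _ hrect
    simp only [wedgeIntegral, add_re, ofReal_re, mul_re, I_re, mul_zero, ofReal_im, I_im, mul_one,
      sub_self, add_zero, add_im, mul_im, zero_add] at e1
    rw [intervalIntegral.integral_symm x0 w.re, intervalIntegral.integral_symm w1.im w.im] at e1
    have e2 : (∫ s in (0 : ℝ)..w1.im, G ((x0 : ℂ) + s * I))
        + (∫ s in w1.im..w.im, G ((x0 : ℂ) + s * I)) = ∫ s in (0 : ℝ)..w.im, G ((x0 : ℂ) + s * I) :=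
      intervalIntegral.integral_add_adjacent_intervals (hAi _ hw1.2.2)
        ((hAi _ hw1.2.2).symm.trans (hAi _ hwS.2.2))
    have e3 : (∫ t in x0..w1.re, G ((t : ℂ) + w1.im * I))
        + (∫ t in w1.re..w.re, G ((t : ℂ) + w1.im * I)) = ∫ t in x0..w.re, G ((t : ℂ) + w1.im * I) :=
      intervalIntegral.integral_add_adjacent_intervals
        ((hGy _ hi).intervalIntegrable _ _) ((hGy _ hi).intervalIntegrable _ _)
    have f1 : F w = I • (∫ s in (0 : ℝ)..w.im, G ((x0 : ℂ) + s * I))
        + ∫ t in x0..w.re, G ((t : ℂ) + w.im * I) := by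
      simp only [hF, hA, hg, hwi, if_false]
    have f2 : F w1 = I • (∫ s in (0 : ℝ)..w1.im, G ((x0 : ℂ) + s * I))
        + ∫ t in x0..w1.re, G ((t : ℂ) + w1.im * I) := by
      simp only [hF, hA, hg, hi, if_false]
    have f3 : wedgeIntegral w1 w G = (∫ x : ℝ in w1.re..w.re, G (x + w1.im * I))
      + I • (∫ y : ℝ in w1.im..w.im, G (w.re + y * I)) := rfl
    rw [f1, f2, f3, ← e2]
    rw [← e3] at e1
    simp only [smul_eq_mul] at e1 ⊢
    linear_combination -e1
  -- continuity on the real line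
  have hΦi : IntervalIntegrable Φ volume α β :=
    (intervalIntegrable_iff_integrableOn_Ioo_of_le hab.le).2 hΦ
  have hcont : ContinuousOn F S := by
    intro w1 hw1
    refine ContinuousAt.continuousWithinAt ?_
    by_cases hi : w1.im = 0
    swap
    · exact (hder w1 hw1 hi).continuousAt
    have hx1 : w1.re ∈ Ioo α β := ⟨hw1.1, hw1.2.1⟩
    have him : Tendsto (fun w : ℂ => w.im) (𝓝 w1) (𝓝 0) := by
      have := continuous_im.tendsto w1
      rwa [hi] at this
    have hevS : ∀ᶠ w in 𝓝 w1, w ∈ S := hSo.mem_nhds hw1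
    have hsplit : ∀ w ∈ S, F w = A w.im + (∫ t in x0..w1.re, g w.im t)
        + ∫ t in w1.re..w.re, g w.im t := by
      intro w hw
      have := intervalIntegral.integral_add_adjacent_intervals
        (hgii w.im hw.2.2 x0 hx0 w1.re hx1) (hgii w.im hw.2.2 w1.re hx1 w.re ⟨hw.1, hw.2.1⟩)
      rw [add_assoc, this]
    have t1 : Tendsto (fun w : ℂ => A w.im) (𝓝 w1) (𝓝 0) := by
      refine squeeze_zero_norm' (a := fun w : ℂ => Φ x0 * |w.im|) ?_ ?_
      · filter_upwards [hevS] with w hw
        exact hAn _ hw.2.2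
      · have : Tendsto (fun w : ℂ => Φ x0 * |w.im|) (𝓝 w1) (𝓝 (Φ x0 * |(0 : ℝ)|)) :=
          (him.abs).const_mul _
        simpa using this
    have t2 : Tendsto (fun w : ℂ => ∫ t in x0..w1.re, g w.im t) (𝓝 w1)
        (𝓝 (∫ t in x0..w1.re, g 0 t)) := by
      refine intervalIntegral.tendsto_integral_filter_of_dominated_convergence Φ ?_ ?_ ?_ ?_
      · exact Eventually.of_forall fun w =>
          (hgm w.im).mono_measure (Measure.restrict_mono (hsubI x0 hx0 w1.re hx1) le_rfl)
      · filter_upwards [hevS] with w hw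
        filter_upwards [hgb w.im hw.2.2] with t ht hm
        exact ht (hsubI x0 hx0 w1.re hx1 hm)
      · rw [intervalIntegrable_iff]
        exact hΦ.mono_set (hsubI x0 hx0 w1.re hx1)
      · filter_upwards [hlim] with t ht hm
        have ht' := ht (hsubI x0 hx0 w1.re hx1 hm)
        have h1 : Tendsto (fun y : ℝ => g y t) (𝓝 0) (𝓝 (g 0 t)) := by
          have e0 : g 0 t = L t := by simp [hg]
          rw [e0, ← nhdsNE_sup_pure, tendsto_sup]
          constructor
          · refine ht'.congr' ?_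
            filter_upwards [eventually_mem_nhdsWithin] with y hy
            have hy' : y ≠ 0 := hy
            simp [hg, hy']
          · rw [tendsto_pure_left]
            intro s hs
            rw [e0]
            exact mem_of_mem_nhds hs
        exact h1.comp him
    have t3 : Tendsto (fun w : ℂ => ∫ t in w1.re..w.re, g w.im t) (𝓝 w1) (𝓝 0) := by
      refine squeeze_zero_norm' (a := fun w : ℂ => |∫ t in w1.re..w.re, Φ t|) ?_ ?_
      · filter_upwards [hevS] with w hw
        refine intervalIntegral.norm_integral_le_abs_of_norm_le ?_ ?_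
        · refine (ae_restrict_iff' measurableSet_uIoc).2 ?_
          filter_upwards [hgb w.im hw.2.2] with t ht hm
          exact ht (hsubI w1.re hx1 w.re ⟨hw.1, hw.2.1⟩ hm)
        · rw [intervalIntegrable_iff]
          exact hΦ.mono_set (hsubI w1.re hx1 w.re ⟨hw.1, hw.2.1⟩)
      · have h1 := intervalIntegral.continuousOn_primitive_interval' (a := w1.re) hΦi
          (by rw [uIcc_of_le hab.le]; exact Ioo_subset_Icc_self hx1)
        have h2 : ContinuousAt (fun b => ∫ x in w1.re..b, Φ x) w1.re := by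
          refine h1.continuousAt ?_
          rw [uIcc_of_le hab.le]
          exact Icc_mem_nhds hx1.1 hx1.2
        have h3 : Tendsto (fun w : ℂ => ∫ t in w1.re..w.re, Φ t) (𝓝 w1)
            (𝓝 (∫ t in w1.re..w1.re, Φ t)) := h2.tendsto.comp (continuous_re.tendsto w1)
        rw [intervalIntegral.integral_same] at h3
        simpa using h3.abs
    have t4 : Tendsto (fun w : ℂ => A w.im + (∫ t in x0..w1.re, g w.im t)
        + ∫ t in w1.re..w.re, g w.im t) (𝓝 w1) (𝓝 (0 + (∫ t in x0..w1.re, g 0 t) + 0)) :=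
      (t1.add t2).add t3
    have e4 : F w1 = 0 + (∫ t in x0..w1.re, g 0 t) + 0 := by
      simp only [hF, hA, hi, intervalIntegral.integral_same, smul_zero, add_zero]
    rw [ContinuousAt, e4]
    refine t4.congr' ?_
    filter_upwards [hevS] with w hw
    exact (hsplit w hw).symm
  have hFd : DifferentiableOn ℂ F S :=
    (isConservativeOn_and_continuousOn_iff_isDifferentiableOn hSo).1
      ⟨conservative hcont fun w hw hi => (hder w hw hi).differentiableAt, hcont⟩
  have hF' : DifferentiableOn ℂ (deriv F) S := hFd.deriv hSo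
  refine ⟨fun w => if w.im = 0 then deriv F w else G w, ?_, ?_⟩
  · intro w hw
    refine DifferentiableAt.differentiableWithinAt ?_
    by_cases hi : w.im = 0
    · have hre : α < w.re ∧ w.re < β := by
        rcases hw with h | h
        · exact absurd hi h
        · exact h
      have hwS : w ∈ S := ⟨hre.1, hre.2, by rw [hi]; norm_num⟩
      have h1 : DifferentiableAt ℂ (deriv F) w := (hF' w hwS).differentiableAt (hSo.mem_nhds hwS)
      refine h1.congr_of_eventuallyEq ?_
      filter_upwards [hSo.mem_nhds hwS] with v hv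
      by_cases hvi : v.im = 0
      · simp [hvi]
      · simp only [hvi, if_false]
        exact (hder v hv hvi).deriv.symm
    · have h1 : DifferentiableAt ℂ G w := (hG w hi).differentiableAt (hopen.mem_nhds hi)
      refine h1.congr_of_eventuallyEq ?_
      filter_upwards [hopen.mem_nhds hi] with v hv
      have hv' : v.im ≠ 0 := hv
      simp [hv']
  · intro w hw
    simp [hw]

end Run7.h495.RD
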